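import Pool.Agent.H17.Cone.Stmts

/-!
# Lattice packings of cones: determinants of lattices (module COV)
-/

set_option autoImplicit false

namespace Pool.Agent.H17.Cone

open MeasureTheory Filter Topology Module

theorem cov_thm : COVStmt := by
  intro w Y hY
  set L : E3 →ₗ[ℝ] E3 := w.constr ℝ (fun i => ∑ j, Y i j • w j) with hLdef
  have hLw : ∀ i, L (w i) = ∑ j, Y i j • w j := fun i => by
    rw [hLdef, Basis.constr_basis]
  have hmat : LinearMap.toMatrix w w L = Y.transpose := by
    ext k i
    rw [LinearMap.toMatrix_apply, hLw i, Matrix.transpose_apply, map_sum, Finsupp.finsetSum_apply,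
      Finset.sum_eq_single k]
    · simp
    · intro j _ hj
      simp [hj]
    · intro h
      exact absurd (Finset.mem_univ k) h
  have hdet : LinearMap.det L = Y.det := by
    rw [← LinearMap.det_toMatrix w L, hmat, Matrix.det_transpose]
  have hunit : IsUnit (LinearMap.toMatrix w w L).det := by
    rw [hmat, Matrix.det_transpose]
    exact isUnit_iff_ne_zero.mpr hY
  refine ⟨w.map (LinearEquiv.ofIsUnitDet hunit), ?_, ?_, ?_⟩
  · intro i
    rw [Basis.map_apply]
    exact hLw i
  · have h1 : parallelepiped (w.map (LinearEquiv.ofIsUnitDet hunit)) =
        L '' parallelepiped w := by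
      rw [image_parallelepiped]
      apply congrArg
      funext i
      rw [Basis.map_apply]
      rfl
    rw [h1, Measure.addHaar_image_linearMap, hdet, ENNReal.toReal_mul,
      ENNReal.toReal_ofReal (abs_nonneg _)]
  · apply ENNReal.toReal_pos
    · have h2 : (interior (parallelepiped w)).Nonempty := by
        rw [← Basis.coe_parallelepiped]
        exact w.parallelepiped.interior_nonempty
      exact (Measure.measure_pos_of_nonempty_interior volume h2).ne'
    · have h3 : IsCompact (parallelepiped w) := by
        rw [← Basis.coe_parallelepiped]
        exact w.parallelepiped.isCompact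
      exact h3.measure_lt_top.ne

end Pool.Agent.H17.Cone
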