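import Pool.Agent.H17.Cone.Stmts

/-!
# Lattice packings of cones: the frame of a triangle of maximal area (module FRM)
-/

set_option autoImplicit false

namespace Pool.Agent.H17.Cone

open MeasureTheory Filter Topology Module

theorem frm_thm (hMAX : MAXStmt) : FRMStmt := by
  intro K hK
  obtain ⟨a, x, ha, hx, hsum, hrepr, hmax⟩ := hMAX K hK
  have hne : K.Nonempty := ⟨a 0, ha 0⟩
  have hcont : ∀ i, Continuous (x i) := fun i => (x i).continuous_of_finiteDimensional
  have hmin : ∀ i, ∃ e ∈ K, ∀ z ∈ K, x i e ≤ x i z := by
    intro i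
    obtain ⟨e, he, hm⟩ := hK.compact.exists_isMinOn hne (hcont i).continuousOn
    exact ⟨e, he, fun z hz => hm hz⟩
  choose e he hm using hmin
  refine ⟨a, x, fun i => -x i (e i), e, ?_, hmax⟩
  refine ⟨ha, hx, hsum, hrepr, ?_, ?_, ?_, he, ?_⟩
  · intro i
    obtain ⟨j, hj⟩ : ∃ j : Fin 3, i ≠ j := by
      fin_cases i
      · exact ⟨1, by decide⟩
      · exact ⟨0, by decide⟩
      · exact ⟨0, by decide⟩
    have h1 := hm i (a j) (ha j)
    rw [hx i j, if_neg hj] at h1
    simpa using h1
  · intro i z hz
    simpa using hm i z hz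
  · intro i z hz
    have h1 := hmax (Function.update a i z) (fun j => by
      by_cases hj : j = i
      · subst hj; simpa using hz
      · rw [Function.update_of_ne hj]; exact ha j)
    have h2 : (Matrix.of fun k j => x j (Function.update a i z k)).det = x i z := by
      fin_cases i <;> simp [Matrix.det_fin_three, Function.update, hx]
    rw [h2] at h1
    exact (abs_le.mp h1).2
  · intro i
    simp

end Pool.Agent.H17.Cone
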